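import Mathlib
import Pool.Agent.E8helper30.MC.Stm

/-!
# Good sets exist
-/

set_option autoImplicit false

namespace Pool.Agent.E8helper99.MC

open Pool.Agent.E8helper30.MC
open scoped Classical Pointwise
open Finset

lemma half {α : Type} (I : Finset α) :
    2 ^ I.card ≤ 2 * (I.powerset.filter fun C => I.card ≤ 2 * C.card).card := by
  have h1 := Finset.card_filter_add_card_filter_not (s := I.powerset)
    (fun C => I.card ≤ 2 * C.card)
  rw [card_powerset] at h1
  have h2 : (I.powerset.filter fun C => ¬ I.card ≤ 2 * C.card).card ≤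
      (I.powerset.filter fun C => I.card ≤ 2 * C.card).card := by
    refine card_le_card_of_injOn (fun C => I \ C) ?_ ?_
    · intro C hC
      simp only [coe_filter, mem_powerset, Set.mem_ofPred_eq] at hC ⊢
      refine ⟨sdiff_subset, ?_⟩
      rw [card_sdiff_of_subset hC.1]
      have := card_le_card hC.1
      omega
    · intro C hC C' hC' h
      simp only [coe_filter, mem_powerset, Set.mem_ofPred_eq] at hC hC'
      have h' : I \ C = I \ C' := h
      have : I \ (I \ C) = I \ (I \ C') := by rw [h']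
      rwa [Finset.sdiff_sdiff_eq_self hC.1, Finset.sdiff_sdiff_eq_self hC'.1] at this
  omega

section

variable {G : Type} [AddCommGroup G]

lemma inj1 (S T : Finset G) (x : G) : (S.filter fun g => g - x ∈ T).card ≤ T.card := by
  refine card_le_card_of_injOn (fun g => g - x) ?_ ?_
  · intro g hg
    simp only [coe_filter, Set.mem_ofPred_eq] at hg
    exact hg.2
  · intro g _ g' _ h
    exact sub_left_injective h

lemma inj2 (S T : Finset G) (g : G) : (S.filter fun x => g - x ∈ T).card ≤ T.card := by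
  refine card_le_card_of_injOn (fun x => g - x) ?_ ?_
  · intro x hx
    simp only [coe_filter, Set.mem_ofPred_eq] at hx
    exact hx.2
  · intro x _ x' _ h
    exact sub_right_injective h

lemma choose_bound (K j : ℕ) (hK : 1 ≤ K) :
    2 ^ j * (j * (2 * K) * (2 * K)).choose j ≤ ((8 * K ^ 2 + 1) * j).choose j := by
  have hf : 0 < j.factorial := Nat.factorial_pos j
  have h1 : j.factorial * ((8 * K ^ 2 + 1) * j).choose j = ((8 * K ^ 2 + 1) * j).descFactorial j :=
    (Nat.descFactorial_eq_factorial_mul_choose _ _).symm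
  have h2 : j.factorial * (j * (2 * K) * (2 * K)).choose j = (j * (2 * K) * (2 * K)).descFactorial j :=
    (Nat.descFactorial_eq_factorial_mul_choose _ _).symm
  have k1 : (8 * K ^ 2 * j) ^ j ≤ ((8 * K ^ 2 + 1) * j).descFactorial j := by
    refine le_trans ?_ (Nat.pow_sub_le_descFactorial _ _)
    apply Nat.pow_le_pow_left
    have : (8 * K ^ 2 + 1) * j = 8 * K ^ 2 * j + j := by ring
    omega
  have k2 : j.factorial * (2 ^ j * (j * (2 * K) * (2 * K)).choose j) ≤ (8 * K ^ 2 * j) ^ j := by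
    have e1 : j.factorial * (2 ^ j * (j * (2 * K) * (2 * K)).choose j) =
        2 ^ j * (j * (2 * K) * (2 * K)).descFactorial j := by rw [← h2]; ring
    have e2 : (8 * K ^ 2 * j) ^ j = 2 ^ j * (j * (2 * K) * (2 * K)) ^ j := by
      rw [← mul_pow]; congr 1; ring
    rw [e1, e2]
    exact Nat.mul_le_mul_left _ (Nat.descFactorial_le_pow _ _)
  have key := k2.trans k1
  rw [← h1] at key
  exact Nat.le_of_mul_le_mul_left key hf

lemma bad1 (hSW : S_SW) (I T₁ T₂ : Finset G) (φ : G → ℤ) (ℓ : ℤ) (K j : ℕ) (hK : 1 ≤ K)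
    (h1 : T₁.card ≤ K) (h2 : T₂.card ≤ K) :
    (Bad1 I T₁ T₂ φ ℓ K ((8 * K ^ 2 + 1) * j)).card * 2 ^ j ≤ 2 ^ I.card := by
  have hT : (T₁ ∪ T₂).card ≤ 2 * K := (card_union_le _ _).trans (by omega)
  have h := hSW G G I (Jun I T₁ T₂ φ ℓ K) (Ag I (T₁ ∪ T₂)) (2 * K) (2 * K) ((8 * K ^ 2 + 1) * j) j
    (fun g _ => filter_subset _ _) (fun g _ => (inj2 I (T₁ ∪ T₂) g).trans hT) (by
      intro x hx
      refine le_trans (card_le_card ?_) ((inj1 (Jun I T₁ T₂ φ ℓ K) (T₁ ∪ T₂) x).trans hT)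
      intro g hg
      rw [mem_filter] at hg ⊢
      exact ⟨hg.1, (mem_filter.1 hg.2).2⟩)
  have hc := choose_bound K j hK
  have hpos : 0 < (j * (2 * K) * (2 * K)).choose j := by
    apply Nat.choose_pos
    calc j = j * 1 * 1 := by ring
      _ ≤ j * (2 * K) * (2 * K) := by gcongr <;> omega
  refine Nat.le_of_mul_le_mul_right ?_ hpos
  calc (Bad1 I T₁ T₂ φ ℓ K ((8 * K ^ 2 + 1) * j)).card * 2 ^ j * (j * (2 * K) * (2 * K)).choose j
      = (Bad1 I T₁ T₂ φ ℓ K ((8 * K ^ 2 + 1) * j)).card *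
        (2 ^ j * (j * (2 * K) * (2 * K)).choose j) := by ring
    _ ≤ (Bad1 I T₁ T₂ φ ℓ K ((8 * K ^ 2 + 1) * j)).card * ((8 * K ^ 2 + 1) * j).choose j :=
        Nat.mul_le_mul_left _ hc
    _ ≤ 2 ^ I.card * (j * (2 * K) * (2 * K)).choose j := h

lemma bad2 (hSAT : S_SAT) (I T : Finset G) (K m : ℕ) (hK : 1 ≤ K) (hT : T.card = K) :
    (Bad2 I T K m).card * 2 ^ (m * K) ≤ I.card ^ m * (K + 1) ^ m * 2 ^ I.card := by
  have h := hSAT G G I (I.filter fun g => ∀ w ∈ T, g - w ∈ I) (Ag I T) K K m hK hK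
    (fun g _ => filter_subset _ _) (by
      intro g hg
      rw [mem_filter] at hg
      rw [← hT]
      have : Ag I T g = T.image (fun w => g - w) := by
        ext x
        unfold Ag
        rw [mem_filter, mem_image]
        constructor
        · rintro ⟨_, h2⟩
          exact ⟨g - x, h2, by abel⟩
        · rintro ⟨w, hw, rfl⟩
          refine ⟨hg.2 w hw, ?_⟩
          have : g - (g - w) = w := by abel
          rwa [this]
      rw [this, card_image_of_injective _ sub_right_injective]) (by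
      intro x
      rw [← hT]
      refine le_trans (card_le_card ?_) (inj1 (I.filter fun g => ∀ w ∈ T, g - w ∈ I) T x)
      intro g hg
      rw [mem_filter] at hg ⊢
      exact ⟨hg.1, (mem_filter.1 hg.2).2⟩)
  refine h.trans ?_
  have h3 : (I.filter fun g => ∀ w ∈ T, g - w ∈ I).card ≤ I.card := card_le_card (filter_subset _ _)
  gcongr

end

theorem t_GOOD (hSW : S_SW) (hSAT : S_SAT) (hSUB : S_SUB) : S_GOOD := by
  intro G _ I D φ ℓ lam hlam hI hD
  set K := 4 * lam with hK
  have hK1 : 1 ≤ K := by omega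
  set j := 8 * lam ^ 2 + 3 with hj
  have hv : (128 * lam ^ 2 + 1) * (8 * lam ^ 2 + 3) = (8 * K ^ 2 + 1) * j := by
    rw [hK, hj]; ring
  rw [hv]
  set P := D.powerset.filter fun T => T.card ≤ K with hP
  have hPc : P.card ≤ 2 ^ (lam * K) := by
    refine (hSUB G D K).trans ?_
    calc (D.card + 1) ^ K ≤ (2 ^ lam) ^ K := Nat.pow_le_pow_left (by omega) _
      _ = 2 ^ (lam * K) := (pow_mul _ _ _).symm
  set B1 : Finset (Finset G) := (P ×ˢ P).biUnion fun p => Bad1 I p.1 p.2 φ ℓ K ((8 * K ^ 2 + 1) * j)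
    with hB1
  set B2 : Finset (Finset G) := (P.filter fun T => T.card = K).biUnion fun T => Bad2 I T K K with hB2
  have hB1c : B1.card * 8 ≤ 2 ^ I.card := by
    have h1 : B1.card * 2 ^ j ≤ (P ×ˢ P).card * 2 ^ I.card := by
      calc B1.card * 2 ^ j ≤ (∑ p ∈ P ×ˢ P, (Bad1 I p.1 p.2 φ ℓ K ((8 * K ^ 2 + 1) * j)).card) * 2 ^ j :=
            Nat.mul_le_mul_right _ card_biUnion_le
        _ = ∑ p ∈ P ×ˢ P, (Bad1 I p.1 p.2 φ ℓ K ((8 * K ^ 2 + 1) * j)).card * 2 ^ j := by
            rw [sum_mul]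
        _ ≤ ∑ p ∈ P ×ˢ P, 2 ^ I.card := by
            refine sum_le_sum fun p hp => ?_
            rw [mem_product] at hp
            exact bad1 hSW I p.1 p.2 φ ℓ K j hK1 (mem_filter.1 hp.1).2 (mem_filter.1 hp.2).2
        _ = (P ×ˢ P).card * 2 ^ I.card := by rw [sum_const, smul_eq_mul]
    have h2 : (P ×ˢ P).card ≤ 2 ^ (8 * lam ^ 2) := by
      rw [card_product]
      calc P.card * P.card ≤ 2 ^ (lam * K) * 2 ^ (lam * K) := Nat.mul_le_mul hPc hPc
        _ = 2 ^ (8 * lam ^ 2) := by rw [← pow_add]; congr 1; rw [hK]; ring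
    have h3 : B1.card * 8 * 2 ^ (8 * lam ^ 2) ≤ 2 ^ I.card * 2 ^ (8 * lam ^ 2) := by
      calc B1.card * 8 * 2 ^ (8 * lam ^ 2) = B1.card * 2 ^ j := by rw [hj, pow_add]; ring
        _ ≤ (P ×ˢ P).card * 2 ^ I.card := h1
        _ ≤ 2 ^ (8 * lam ^ 2) * 2 ^ I.card := Nat.mul_le_mul_right _ h2
        _ = 2 ^ I.card * 2 ^ (8 * lam ^ 2) := by ring
    exact Nat.le_of_mul_le_mul_right h3 (by positivity)
  have hB2c : B2.card * 8 ≤ 2 ^ I.card := by
    have h1 : B2.card * 2 ^ (K * K) ≤ P.card * (I.card ^ K * (K + 1) ^ K * 2 ^ I.card) := by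
      calc B2.card * 2 ^ (K * K)
          ≤ (∑ T ∈ P.filter fun T => T.card = K, (Bad2 I T K K).card) * 2 ^ (K * K) :=
            Nat.mul_le_mul_right _ card_biUnion_le
        _ = ∑ T ∈ P.filter fun T => T.card = K, (Bad2 I T K K).card * 2 ^ (K * K) := by rw [sum_mul]
        _ ≤ ∑ T ∈ P.filter fun T => T.card = K, (I.card ^ K * (K + 1) ^ K * 2 ^ I.card) := by
            refine sum_le_sum fun T hT => ?_
            exact bad2 hSAT I T K K hK1 (mem_filter.1 hT).2
        _ = (P.filter fun T => T.card = K).card * (I.card ^ K * (K + 1) ^ K * 2 ^ I.card) := by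
            rw [sum_const, smul_eq_mul]
        _ ≤ P.card * (I.card ^ K * (K + 1) ^ K * 2 ^ I.card) :=
            Nat.mul_le_mul_right _ (card_le_card (filter_subset _ _))
    have hIc : I.card ≤ 2 ^ (lam - 1) := by
      have : 2 ^ lam = 2 * 2 ^ (lam - 1) := by
        rw [← pow_succ']; congr 1; omega
      omega
    have hKc : K + 1 ≤ 2 ^ lam := by
      have h32 : ∀ l : ℕ, 5 ≤ l → 4 * l + 1 ≤ 2 ^ l := by
        intro l hl
        induction l, hl using Nat.le_induction with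
        | base => norm_num
        | succ l hl ih => rw [pow_succ]; omega
      exact h32 lam hlam
    have h4 : I.card ^ K * (K + 1) ^ K ≤ 2 ^ ((2 * lam - 1) * K) := by
      calc I.card ^ K * (K + 1) ^ K ≤ (2 ^ (lam - 1)) ^ K * (2 ^ lam) ^ K :=
            Nat.mul_le_mul (Nat.pow_le_pow_left hIc _) (Nat.pow_le_pow_left hKc _)
        _ = 2 ^ ((2 * lam - 1) * K) := by
            rw [← pow_mul, ← pow_mul, ← pow_add]
            congr 1
            have : 2 * lam - 1 = (lam - 1) + lam := by omega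
            rw [this]; ring
    have h5 : B2.card * 2 ^ (K * K) ≤ 2 ^ (lam * K) * 2 ^ ((2 * lam - 1) * K) * 2 ^ I.card := by
      refine h1.trans ?_
      rw [← mul_assoc]
      exact Nat.mul_le_mul_right _ (Nat.mul_le_mul hPc h4)
    have h6 : lam * K + (2 * lam - 1) * K + 3 ≤ K * K := by
      obtain ⟨k, rfl⟩ : ∃ k, lam = k + 1 := ⟨lam - 1, by omega⟩
      have : 2 * (k + 1) - 1 = 2 * k + 1 := by omega
      rw [this, hK]
      nlinarith
    have h7 : B2.card * 8 * 2 ^ (lam * K + (2 * lam - 1) * K) ≤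
        2 ^ I.card * 2 ^ (lam * K + (2 * lam - 1) * K) := by
      calc B2.card * 8 * 2 ^ (lam * K + (2 * lam - 1) * K)
          = B2.card * 2 ^ (lam * K + (2 * lam - 1) * K + 3) := by rw [pow_add _ _ 3]; ring
        _ ≤ B2.card * 2 ^ (K * K) := Nat.mul_le_mul_left _ (Nat.pow_le_pow_right (by norm_num) h6)
        _ ≤ 2 ^ (lam * K) * 2 ^ ((2 * lam - 1) * K) * 2 ^ I.card := h5
        _ = 2 ^ I.card * 2 ^ (lam * K + (2 * lam - 1) * K) := by rw [pow_add]; ring
    exact Nat.le_of_mul_le_mul_right h7 (by positivity)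
  -- a good set
  have hA := half I
  set A := I.powerset.filter fun C => I.card ≤ 2 * C.card with hAdef
  have hpos : 0 < 2 ^ I.card := by positivity
  have hlt : (B1 ∪ B2).card < A.card := by
    have := card_union_le B1 B2
    omega
  obtain ⟨C, hCA, hCB⟩ := exists_mem_notMem_of_card_lt_card hlt
  rw [mem_union, not_or] at hCB
  rw [hAdef, mem_filter, mem_powerset] at hCA
  refine ⟨C, hCA.1, hCA.2, ?_, ?_⟩
  · intro T₁ hT₁ T₂ hT₂ h1 h2 hC
    apply hCB.1
    rw [hB1, mem_biUnion]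
    exact ⟨(T₁, T₂), mem_product.2 ⟨mem_filter.2 ⟨mem_powerset.2 hT₁, h1⟩,
      mem_filter.2 ⟨mem_powerset.2 hT₂, h2⟩⟩, hC⟩
  · intro T hT h1 hC
    apply hCB.2
    rw [hB2, mem_biUnion]
    exact ⟨T, mem_filter.2 ⟨mem_filter.2 ⟨mem_powerset.2 hT, h1.le⟩, h1⟩, hC⟩

end Pool.Agent.E8helper99.MC
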